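import Mathlib
import Pool.Agent.Y722.DK.Girth
import Pool.Agent.Y722.DK.Dense

set_option autoImplicit false

/-!
# MP_d31508_co: fewest edges forcing induced maximum degree `k` on `(k+2)`-sets, all `n`

For `n ≥ k + 2` put `F(n,k) = C(n,2) - C(k+1,2) - (n-k-1)`.

* `f(n,k) ≤ F(n,k) - ⌊(n-k-1)/k⌋` for all `k ≥ 2` and `n ≥ k + 1`, with equality if `n ≤ 2k`; hence
  `f(n,k) = F(n,k)` holds if and only if `n ≤ 2k`, and `f(n,k) < F(n,k)` for all `n > 2k`.
* For every fixed `k` the number `C(n,2) - f(n,k)` of missing edges grows faster than every linear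
  function of `n`, and slower than every `ε n ^ 2`.
-/

namespace Pool.Agent.Results.MP_d31508_co.AllN

open Finset

open Classical in
/-- the number of neighbours of `v` in `S` -/
noncomputable def deg {V : Type} (G : SimpleGraph V) (v : V) (S : Finset V) : ℕ :=
  (S.filter fun u => G.Adj v u).card

/-- `G` has property `P_k`: every set `S` of exactly `k + 2` vertices contains a vertex adjacent
to at least `k` of the vertices of `S`. -/
def HasP {n : ℕ} (k : ℕ) (G : SimpleGraph (Fin n)) : Prop :=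
  ∀ S : Finset (Fin n), S.card = k + 2 → ∃ v ∈ S, k ≤ deg G v S

/-- `f(n,k)`: the least number of edges of a graph on `n` vertices with property `P_k` -/
noncomputable def f (n k : ℕ) : ℕ :=
  sInf {e | ∃ G : SimpleGraph (Fin n), HasP k G ∧ G.edgeSet.ncard = e}

lemma f_eq (n k : ℕ) : f n k = Pool.Agent.Results.MP_d31508_co.UpToTwiceK.f n k := rfl

/-- The set in the definition of `f` is never empty (first clause, the minimum is attained); the
exact value for `k + 2 ≤ n ≤ 2k`, the upper bound for all `n`, the range of validity of the formula,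
and the growth of the number of missing edges for fixed `k`. -/
theorem result :
    (∀ n k : ℕ, 1 ≤ k → ∃ G : SimpleGraph (Fin n), HasP k G ∧ G.edgeSet.ncard = f n k) ∧
    (∀ n k : ℕ, k + 2 ≤ n → n ≤ 2 * k →
      f n k + (k + 1).choose 2 + (n - k - 1) = n.choose 2) ∧
    (∀ n k : ℕ, 2 ≤ k → k + 1 ≤ n →
      f n k + (k + 1).choose 2 + (n - k - 1) + (n - k - 1) / k ≤ n.choose 2) ∧
    (∀ n k : ℕ, 2 ≤ k → k + 2 ≤ n →
      (f n k + (k + 1).choose 2 + (n - k - 1) = n.choose 2 ↔ n ≤ 2 * k)) ∧
    (∀ k M : ℕ, ∃ N : ℕ, ∀ n ≥ N, f n k + M * n ≤ n.choose 2) ∧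
    (∀ k : ℕ, 2 ≤ k → ∀ ε : ℝ, 0 < ε → ∃ N : ℕ, ∀ n ≥ N, (1 - ε) * (n.choose 2 : ℝ) ≤ f n k) := by
  classical
  have hA := Pool.Agent.Results.MP_d31508_co.UpToTwiceK.result.1
  have hB : ∀ n k : ℕ, 2 ≤ k → k + 1 ≤ n →
      f n k + (k + 1).choose 2 + (n - k - 1) + (n - k - 1) / k ≤ n.choose 2 :=
    fun n k hk hn => Pool.Agent.Y722.DK.explicit hk hn
  refine ⟨fun n k hk => ?_, hA, hB, fun n k hk hn => ⟨fun h => ?_, fun h => hA n k hn h⟩,
    fun k M => Pool.Agent.Y722.DK.superlinear k M, fun k hk ε hε => Pool.Agent.Y722.DK.dense hk hε⟩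
  · have hne : {e | ∃ G : SimpleGraph (Fin n), HasP k G ∧ G.edgeSet.ncard = e}.Nonempty := by
      refine ⟨_, ⊤, ?_, rfl⟩
      intro S hS
      obtain ⟨v, hv⟩ := card_pos.1 (show 0 < S.card by omega)
      refine ⟨v, hv, ?_⟩
      have h1 : S.erase v ⊆ S.filter fun u => (⊤ : SimpleGraph (Fin n)).Adj v u := by
        intro u hu
        rw [mem_erase] at hu
        rw [mem_filter]
        exact ⟨hu.2, hu.1.symm⟩
      have h2 := card_le_card h1
      rw [card_erase_of_mem hv, hS] at h2
      have h3 : (S.filter fun u => (⊤ : SimpleGraph (Fin n)).Adj v u).card =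
          deg (⊤ : SimpleGraph (Fin n)) v S := by
        unfold deg
        congr
      omega
    exact Nat.sInf_mem hne
  · by_contra hcon
    push Not at hcon
    have h1 := hB n k hk (by omega)
    have h2 : 1 ≤ (n - k - 1) / k := by
      rw [Nat.one_le_div_iff (by omega)]
      omega
    omega

end Pool.Agent.Results.MP_d31508_co.AllN
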